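import Pool.Agent.Y892.DP.Stm3
import Pool.Agent.Y474.NV.Dgn
import Pool.Agent.Y44.NV.Red
import Pool.Agent.Y657.NV.Dgn1
import Pool.Agent.Y77.NV.DGN2

/-!
# DGC: invariant characters of defect zero for a `p`-automorphism

The count of Dade, Glauberman and Nagao (helper63's library NV) for the extension of `N` by a
`p`-element `a` normalising it, in terms of the elements of the coset `a N`.
-/

set_option autoImplicit false
set_option linter.unusedSectionVars false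

open scoped Classical BigOperators

noncomputable section

namespace Pool.Agent.Y31.DP

open Pool.Agent.Y63.KR Pool.Agent.Y63.AWC Pool.Agent.Y63.NV Pool.Agent.Y474.NV
  Pool.Agent.Y892.DP

/-! ### The count in terms of elements -/

section Abs

variable {Y : Type} [Group Y] {X : Subgroup Y} [hX : X.Normal] {a : Y}

/-- the complements of `X` are generated by the elements `u` -/
theorem cmp_zpowers {p : ℕ} (hXa : X ⊔ Subgroup.zpowers a = ⊤) (u : Y) (h1 : a⁻¹ * u ∈ X)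
    (h2 : ∃ k : ℕ, u ^ p ^ k = 1) (h3 : Subgroup.zpowers u ⊓ X = ⊥) :
    IsPGroup p (Subgroup.zpowers u) ∧ X ⊔ Subgroup.zpowers u = ⊤ ∧ X ⊓ Subgroup.zpowers u = ⊥ := by
  refine ⟨?_, ?_, by rw [inf_comm]; exact h3⟩
  · rintro ⟨x, hx⟩
    obtain ⟨i, rfl⟩ := Subgroup.mem_zpowers_iff.1 hx
    obtain ⟨k, hk⟩ := h2
    refine ⟨k, Subtype.ext ?_⟩
    change (u ^ i) ^ p ^ k = 1
    rw [← zpow_natCast, ← zpow_mul, mul_comm, zpow_mul, zpow_natCast, hk, one_zpow]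
  · rw [eq_top_iff, ← hXa]
    refine sup_le le_sup_left ?_
    rw [Subgroup.zpowers_le]
    have h4 : a = u * (a⁻¹ * u)⁻¹ := by group
    rw [h4]
    exact mul_mem (Subgroup.mem_sup_right (Subgroup.mem_zpowers u))
      (Subgroup.mem_sup_left (inv_mem h1))

theorem exists_zpowers {p : ℕ} (R : Subgroup Y) (h0 : IsPGroup p R) (h1 : X ⊔ R = ⊤)
    (h2 : X ⊓ R = ⊥) (hXa : X ⊔ Subgroup.zpowers a = ⊤) :
    ∃ u : Y, (a⁻¹ * u ∈ X ∧ (∃ k : ℕ, u ^ p ^ k = 1) ∧ Subgroup.zpowers u ⊓ X = ⊥) ∧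
      Subgroup.zpowers u = R := by
  have h3 : a ∈ X ⊔ R := by rw [h1]; exact Subgroup.mem_top a
  obtain ⟨x, hx, r, hr, hxr⟩ := Subgroup.mem_sup_of_normal_left.1 h3
  have hle : Subgroup.zpowers r ≤ R := by rwa [Subgroup.zpowers_le]
  have h4 : a⁻¹ * r ∈ X := by
    rw [← hxr]
    have : (x * r)⁻¹ * r = r⁻¹ * x⁻¹ * (r⁻¹)⁻¹ := by group
    rw [this]
    exact hX.conj_mem _ (inv_mem hx) _
  have h5 : Subgroup.zpowers r ⊓ X = ⊥ := by
    rw [eq_bot_iff, ← h2]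
    exact fun y hy => ⟨hy.2, hle hy.1⟩
  have h6 : ∃ k : ℕ, r ^ p ^ k = 1 := by
    obtain ⟨k, hk⟩ := h0 ⟨r, hr⟩
    exact ⟨k, congrArg Subtype.val hk⟩
  refine ⟨r, ⟨h4, h6, h5⟩, le_antisymm hle ?_⟩
  intro s hs
  have h7 : s ∈ X ⊔ Subgroup.zpowers r := by
    rw [(cmp_zpowers hXa r h4 h6 h5).2.1]
    exact Subgroup.mem_top s
  obtain ⟨x', hx', t, ht, hxt⟩ := Subgroup.mem_sup_of_normal_left.1 h7
  have h8 : x' ∈ X ⊓ R := ⟨hx', by
    have : x' = s * t⁻¹ := by rw [← hxt]; group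
    rw [this]
    exact R.mul_mem hs (R.inv_mem (hle ht))⟩
  rw [h2, Subgroup.mem_bot] at h8
  rw [← hxt, h8, one_mul]
  exact ht

theorem cent_zpowers (u : Y) : Subgroup.centralizer ((Subgroup.zpowers u : Subgroup Y) : Set Y) =
    Subgroup.centralizer {u} := by
  rw [Subgroup.zpowers_eq_closure, Subgroup.centralizer_closure]

/-- the order of the normalizer of a complement -/
theorem card_norm (R : Subgroup Y) (h1 : X ⊔ R = ⊤) (h2 : X ⊓ R = ⊥) :
    Nat.card (Subgroup.normalizer (R : Set Y)) =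
      Nat.card R * Nat.card ↥(X ⊓ Subgroup.centralizer (R : Set Y)) := by
  have h3 := Nat.card_congr (Equiv.ofBijective _ (kmap_bij X R h1 h2))
  rw [h3, Subgroup.card_eq_card_quotient_mul_card_subgroup
    (R.subgroupOf (Subgroup.normalizer (R : Set Y))), mul_comm]
  congr 1
  exact Nat.card_congr (Subgroup.subgroupOfEquivOfLe Subgroup.le_normalizer).toEquiv

theorem card_cmp (R : Subgroup Y) (h1 : X ⊔ R = ⊤) (h2 : X ⊓ R = ⊥) :
    Nat.card R = X.index := by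
  have h3 : Subgroup.IsComplement' X R := by
    refine Subgroup.isComplement'_of_disjoint_and_mul_eq_univ (disjoint_iff.2 h2) ?_
    rw [← Subgroup.normal_mul, h1]
    rfl
  exact h3.symm.index_eq_card.symm

theorem dgc_abs [Finite Y] (dgn : S_DGN) (p : ℕ) [Fact p.Prime] (ha : ∃ k : ℕ, a ^ p ^ k = 1)
    (hXa : X ⊔ Subgroup.zpowers a = ⊤) :
    Nat.card X * numInvDz p X =
      ∑ᶠ u : {u : Y // a⁻¹ * u ∈ X ∧ (∃ k : ℕ, u ^ p ^ k = 1) ∧ Subgroup.zpowers u ⊓ X = ⊥},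
        Nat.card ↥(Subgroup.centralizer {u.1} ⊓ X) *
          numDefectZero p ↥(Subgroup.centralizer {u.1} ⊓ X) := by
  have hq : IsPGroup p (Y ⧸ X) := by
    intro q
    induction q using QuotientGroup.induction_on with
    | H y =>
      obtain ⟨k, hk⟩ := ha
      have h3 : y ∈ X ⊔ Subgroup.zpowers a := by rw [hXa]; exact Subgroup.mem_top y
      obtain ⟨x, hx, t, ht, hxt⟩ := Subgroup.mem_sup_of_normal_left.1 h3
      obtain ⟨i, rfl⟩ := Subgroup.mem_zpowers_iff.1 ht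
      refine ⟨k, ?_⟩
      rw [← hxt, QuotientGroup.mk_mul, (QuotientGroup.eq_one_iff x).2 hx, one_mul,
        ← QuotientGroup.mk_pow, ← zpow_natCast, ← zpow_mul, mul_comm, zpow_mul, zpow_natCast, hk,
        one_zpow, QuotientGroup.mk_one]
  have h := dgn p Y X hq
  have hd : 0 < X.index := Nat.pos_of_ne_zero Subgroup.index_ne_zero_of_finite
  refine Nat.eq_of_mul_eq_mul_left hd ?_
  rw [← mul_assoc, Subgroup.index_mul_card, h]
  -- the bijection
  let f : {u : Y // a⁻¹ * u ∈ X ∧ (∃ k : ℕ, u ^ p ^ k = 1) ∧ Subgroup.zpowers u ⊓ X = ⊥} →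
      {R : Subgroup Y // IsPGroup p R ∧ X ⊔ R = ⊤ ∧ X ⊓ R = ⊥} := fun u =>
    ⟨Subgroup.zpowers u.1, cmp_zpowers hXa u.1 u.2.1 u.2.2.1 u.2.2.2⟩
  have hf : Function.Bijective f := by
    constructor
    · rintro ⟨u, hu⟩ ⟨v, hv⟩ huv
      have h4 : Subgroup.zpowers u = Subgroup.zpowers v := congrArg Subtype.val huv
      have h5 : u⁻¹ * v ∈ Subgroup.zpowers u ⊓ X := by
        refine ⟨(Subgroup.zpowers u).mul_mem ((Subgroup.zpowers u).inv_mem
          (Subgroup.mem_zpowers u)) (h4 ▸ Subgroup.mem_zpowers v), ?_⟩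
        have : u⁻¹ * v = (a⁻¹ * u)⁻¹ * (a⁻¹ * v) := by group
        rw [this]
        exact X.mul_mem (X.inv_mem hu.1) hv.1
      rw [hu.2.2, Subgroup.mem_bot] at h5
      exact Subtype.ext (inv_mul_eq_one.1 h5)
    · rintro ⟨R, h0, h1, h2⟩
      obtain ⟨u, hu, huR⟩ := exists_zpowers (p := p) R h0 h1 h2 hXa
      exact ⟨⟨u, hu⟩, Subtype.ext huR⟩
  have h6 : ∑ᶠ R : Subgroup Y, (if IsPGroup p R ∧ X ⊔ R = ⊤ ∧ X ⊓ R = ⊥ then
        Nat.card (Subgroup.normalizer (R : Set Y)) * locz p R else 0) =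
      ∑ᶠ R : {R : Subgroup Y // IsPGroup p R ∧ X ⊔ R = ⊤ ∧ X ⊓ R = ⊥},
        Nat.card (Subgroup.normalizer (R.1 : Set Y)) * locz p R.1 := by
    rw [finsum_subtype_eq_finsum_cond
      (f := fun R : Subgroup Y => Nat.card (Subgroup.normalizer (R : Set Y)) * locz p R)
      (fun R : Subgroup Y => IsPGroup p R ∧ X ⊔ R = ⊤ ∧ X ⊓ R = ⊥)]
    refine finsum_congr fun R => ?_
    by_cases hR : IsPGroup p R ∧ X ⊔ R = ⊤ ∧ X ⊓ R = ⊥
    · rw [if_pos hR, finsum_eq_if, if_pos hR]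
    · rw [if_neg hR, finsum_eq_if, if_neg hR]
  rw [h6, ← smul_eq_mul X.index, smul_finsum' _ (Set.toFinite _)]
  symm
  refine finsum_eq_of_bijective f hf fun u => ?_
  have hR := (f u).2
  change X.index • _ = Nat.card (Subgroup.normalizer ((f u).1 : Set Y)) * locz p (f u).1
  rw [card_norm (X := X) _ hR.2.1 hR.2.2, card_cmp (X := X) _ hR.2.1 hR.2.2,
    locz_eq p X _ hR.2.1 hR.2.2, numInvDz_top, smul_eq_mul, mul_assoc]
  have h7 : X ⊓ Subgroup.centralizer (((f u).1 : Subgroup Y) : Set Y) =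
      Subgroup.centralizer {u.1} ⊓ X := by
    rw [inf_comm]
    congr 1
    exact cent_zpowers u.1
  rw [h7]

end Abs

section Tr

variable {G : Type} [Group G] {N : Subgroup G} {a : G}

theorem mem_conj (h : conjSub a N = N) (n : G) (hn : n ∈ N) : a * n * a⁻¹ ∈ N := by
  have h1 : a * n * a⁻¹ ∈ conjSub a N := ⟨n, hn, rfl⟩
  rwa [h] at h1

theorem le_norm (h : conjSub a N = N) : N ⊔ Subgroup.zpowers a ≤ Subgroup.normalizer (N : Set G) := by
  refine sup_le Subgroup.le_normalizer ?_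
  rw [Subgroup.zpowers_le, Subgroup.mem_normalizer_iff]
  intro n
  refine ⟨mem_conj h n, fun hn => ?_⟩
  rw [← h] at hn
  obtain ⟨m, hm, hmn⟩ := hn
  have h2 : a * m * a⁻¹ = a * n * a⁻¹ := hmn
  have h3 : m = n := by simpa using h2
  exact h3 ▸ hm

/-- the elements of the normalizer fixing `ψ` -/
def st (ψ : N → ℂ) : Subgroup G where
  carrier := {y | y ∈ Subgroup.normalizer (N : Set G) ∧
    ∀ g g' : N, (g' : G) = y * g * y⁻¹ → ψ g' = ψ g}
  one_mem' := ⟨one_mem _, fun g g' h => by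
    have : g' = g := Subtype.ext (by rw [h]; group)
    rw [this]⟩
  mul_mem' := by
    rintro y z ⟨hy1, hy2⟩ ⟨hz1, hz2⟩
    refine ⟨mul_mem hy1 hz1, fun g g' h => ?_⟩
    have h1 : z * g * z⁻¹ ∈ N := (Subgroup.mem_normalizer_iff.1 hz1 g).1 g.2
    rw [← hz2 g ⟨_, h1⟩ rfl]
    refine hy2 ⟨_, h1⟩ g' ?_
    rw [h]
    change _ = y * (z * g * z⁻¹) * y⁻¹
    group
  inv_mem' := by
    rintro y ⟨hy1, hy2⟩
    refine ⟨inv_mem hy1, fun g g' h => ?_⟩
    refine (hy2 g' g ?_).symm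
    rw [h]
    group

theorem le_st {ψ : N → ℂ} (hψ : IsIrreducibleCharacter ψ) (h : conjSub a N = N)
    (ha : ∀ g g' : N, (g' : G) = a * g * a⁻¹ → ψ g' = ψ g) : N ⊔ Subgroup.zpowers a ≤ st ψ := by
  refine sup_le ?_ ?_
  · intro n hn
    refine ⟨Subgroup.le_normalizer hn, fun g g' hg => ?_⟩
    obtain ⟨V, i1, i2, i3, ρ, -, rfl⟩ := hψ
    have h3 : g' = ⟨n, hn⟩ * g * ⟨n, hn⟩⁻¹ := Subtype.ext hg
    rw [h3]
    exact ρ.char_conj _ _
  · rw [Subgroup.zpowers_le]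
    exact ⟨le_norm h (Subgroup.mem_sup_right (Subgroup.mem_zpowers a)), ha⟩

/-- invariance under `a` and under the group generated by `N` and `a` -/
theorem numInvDz_eq (p : ℕ) (h : conjSub a N = N) :
    numInvDz p (N.subgroupOf (N ⊔ Subgroup.zpowers a)) = invZero p N a := by
  have hle : N ≤ N ⊔ Subgroup.zpowers a := le_sup_left
  let e : ↥(N.subgroupOf (N ⊔ Subgroup.zpowers a)) ≃* N := Subgroup.subgroupOfEquivOfLe hle
  have he : ∀ x, ((e x : N) : G) = ((x : ↥(N ⊔ Subgroup.zpowers a)) : G) := fun x => rfl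
  have he' : ∀ x : N, (((e.symm x : ↥(N.subgroupOf (N ⊔ Subgroup.zpowers a))) :
      ↥(N ⊔ Subgroup.zpowers a)) : G) = x := fun x => by
    rw [← he, e.apply_symm_apply]
  have hc : Nat.card ↥(N.subgroupOf (N ⊔ Subgroup.zpowers a)) = Nat.card N :=
    Nat.card_congr e.toEquiv
  unfold numInvDz invZero
  refine Nat.card_congr
    { toFun := fun χ => ⟨fun x => χ.1 (e.symm x), irr_comp e.symm χ.2.1, ?_, ?_⟩
      invFun := fun ψ => ⟨fun x => ψ.1 (e x), irr_comp e ψ.2.1, ?_, ?_⟩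
      left_inv := fun χ => Subtype.ext (funext fun x => ?_)
      right_inv := fun ψ => Subtype.ext (funext fun x => ?_) }
  · obtain ⟨n, h1, h2⟩ := χ.2.2.1
    refine ⟨n, ?_, by rw [h2, hc]⟩
    change χ.1 (e.symm 1) = n
    rw [map_one, h1]
  · intro g g' hg
    refine χ.2.2.2 ⟨a, Subgroup.mem_sup_right (Subgroup.mem_zpowers a)⟩ _ _ ?_
    refine Subtype.ext ?_
    change (((e.symm g' : ↥(N.subgroupOf (N ⊔ Subgroup.zpowers a))) :
      ↥(N ⊔ Subgroup.zpowers a)) : G) = a * ((e.symm g :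
        ↥(N.subgroupOf (N ⊔ Subgroup.zpowers a))) : ↥(N ⊔ Subgroup.zpowers a)) * a⁻¹
    rw [he', he', hg]
  · obtain ⟨n, h1, h2⟩ := ψ.2.2.1
    refine ⟨n, ?_, by rw [h2, hc]⟩
    change ψ.1 (e 1) = n
    rw [map_one, h1]
  · intro y b c hbc
    refine (le_st ψ.2.1 h ψ.2.2.2 y.2).2 _ _ ?_
    rw [he, he, hbc]
    rfl
  · change χ.1 (e.symm (e x)) = χ.1 x
    rw [e.symm_apply_apply]
  · change ψ.1 (e (e.symm x)) = ψ.1 x
    rw [e.apply_symm_apply]

end Tr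

theorem dgc_of (dgn : S_DGN) : S_DGC := by
  intro p _ G _ _ N a ha hN
  have hle : N ≤ N ⊔ Subgroup.zpowers a := le_sup_left
  have haY : a ∈ N ⊔ Subgroup.zpowers a := Subgroup.mem_sup_right (Subgroup.mem_zpowers a)
  have : (N.subgroupOf (N ⊔ Subgroup.zpowers a)).Normal :=
    (Subgroup.normal_subgroupOf_iff_le_normalizer hle).2 (le_norm hN)
  have hsub : N.subgroupOf (N ⊔ Subgroup.zpowers a) ⊔
      Subgroup.zpowers (⟨a, haY⟩ : ↥(N ⊔ Subgroup.zpowers a)) = ⊤ := by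
    rw [eq_top_iff]
    rintro ⟨y, hy⟩ -
    have key : N ⊔ Subgroup.zpowers a ≤ (N.subgroupOf (N ⊔ Subgroup.zpowers a) ⊔
      Subgroup.zpowers (⟨a, haY⟩ : ↥(N ⊔ Subgroup.zpowers a))).map
        (N ⊔ Subgroup.zpowers a).subtype := by
      refine sup_le ?_ ?_
      · intro n hn
        exact ⟨⟨n, hle hn⟩, Subgroup.mem_sup_left hn, rfl⟩
      · rw [Subgroup.zpowers_le]
        exact ⟨⟨a, haY⟩, Subgroup.mem_sup_right (Subgroup.mem_zpowers _), rfl⟩
    obtain ⟨z, hz, hzy⟩ := key hy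
    have : z = ⟨y, hy⟩ := Subtype.ext hzy
    rwa [this] at hz
  have h := dgc_abs (X := N.subgroupOf (N ⊔ Subgroup.zpowers a))
    (a := (⟨a, haY⟩ : ↥(N ⊔ Subgroup.zpowers a))) dgn p
    (by obtain ⟨k, hk⟩ := ha; exact ⟨k, Subtype.ext hk⟩) hsub
  rw [numInvDz_eq p hN,
    Nat.card_congr (Subgroup.subgroupOfEquivOfLe hle).toEquiv] at h
  rw [h]
  have hcomm : ∀ u : ↥(N ⊔ Subgroup.zpowers a), Subgroup.zpowers u ⊓
      N.subgroupOf (N ⊔ Subgroup.zpowers a) = ⊥ ↔ Subgroup.zpowers (u : G) ⊓ N = ⊥ := by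
    intro u
    rw [eq_bot_iff, eq_bot_iff]
    constructor
    · rintro h1 x ⟨hx1, hx2⟩
      obtain ⟨i, rfl⟩ := Subgroup.mem_zpowers_iff.1 hx1
      have h2 : u ^ i ∈ (⊥ : Subgroup ↥(N ⊔ Subgroup.zpowers a)) :=
        h1 ⟨Subgroup.mem_zpowers_iff.2 ⟨i, rfl⟩, hx2⟩
      rw [Subgroup.mem_bot] at h2 ⊢
      exact congrArg Subtype.val h2
    · rintro h1 x ⟨hx1, hx2⟩
      obtain ⟨i, rfl⟩ := Subgroup.mem_zpowers_iff.1 hx1
      have h2 : (u : G) ^ i ∈ (⊥ : Subgroup G) :=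
        h1 ⟨Subgroup.mem_zpowers_iff.2 ⟨i, rfl⟩, hx2⟩
      rw [Subgroup.mem_bot] at h2 ⊢
      exact Subtype.ext h2
  let f : {u : ↥(N ⊔ Subgroup.zpowers a) // (⟨a, haY⟩ : ↥(N ⊔ Subgroup.zpowers a))⁻¹ * u ∈
      N.subgroupOf (N ⊔ Subgroup.zpowers a) ∧ (∃ k : ℕ, u ^ p ^ k = 1) ∧
      Subgroup.zpowers u ⊓ N.subgroupOf (N ⊔ Subgroup.zpowers a) = ⊥} →
      {u : G // a⁻¹ * u ∈ N ∧ (∃ k : ℕ, u ^ p ^ k = 1) ∧ Subgroup.zpowers u ⊓ N = ⊥} := fun u =>
    ⟨u.1, u.2.1, by obtain ⟨k, hk⟩ := u.2.2.1; exact ⟨k, congrArg Subtype.val hk⟩,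
      (hcomm u.1).1 u.2.2.2⟩
  have hf : Function.Bijective f := by
    constructor
    · intro u v huv
      exact Subtype.ext (Subtype.ext (congrArg (fun w => w.1) huv))
    · rintro ⟨u, h1, h2, h3⟩
      have hu : u ∈ N ⊔ Subgroup.zpowers a := by
        have : u = a * (a⁻¹ * u) := by group
        rw [this]
        exact mul_mem haY (hle h1)
      exact ⟨⟨⟨u, hu⟩, h1, by obtain ⟨k, hk⟩ := h2; exact ⟨k, Subtype.ext hk⟩,
        (hcomm ⟨u, hu⟩).2 h3⟩, rfl⟩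
  refine finsum_eq_of_bijective f hf fun u => ?_
  have h1 : ∀ x : ↥(Subgroup.centralizer {u.1} ⊓ N.subgroupOf (N ⊔ Subgroup.zpowers a)),
      ((x : ↥(N ⊔ Subgroup.zpowers a)) : G) ∈ Subgroup.centralizer {(f u).1} ⊓ N := by
    intro x
    refine ⟨Subgroup.mem_centralizer_iff.2 fun y hy => ?_, x.2.2⟩
    rw [Set.mem_singleton_iff] at hy
    rw [hy]
    have := Subgroup.mem_centralizer_iff.1 x.2.1 u.1 rfl
    exact congrArg Subtype.val this
  have h2 : ∀ x : ↥(Subgroup.centralizer {(f u).1} ⊓ N),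
      (⟨x, hle x.2.2⟩ : ↥(N ⊔ Subgroup.zpowers a)) ∈
        Subgroup.centralizer {u.1} ⊓ N.subgroupOf (N ⊔ Subgroup.zpowers a) := by
    intro x
    refine ⟨Subgroup.mem_centralizer_iff.2 fun y hy => ?_, x.2.2⟩
    rw [Set.mem_singleton_iff] at hy
    rw [hy]
    have := Subgroup.mem_centralizer_iff.1 x.2.1 (u.1 : G) rfl
    exact Subtype.ext this
  let e : ↥(Subgroup.centralizer {u.1} ⊓ N.subgroupOf (N ⊔ Subgroup.zpowers a)) ≃*
      ↥(Subgroup.centralizer {(f u).1} ⊓ N) :=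
    { toFun := fun x => ⟨_, h1 x⟩
      invFun := fun x => ⟨_, h2 x⟩
      left_inv := fun x => rfl
      right_inv := fun x => rfl
      map_mul' := fun x y => rfl }
  change Nat.card _ * numDefectZero p _ = _
  rw [Nat.card_congr e.toEquiv, numDefectZero_congr e]

/-- DGC: invariant characters of defect zero for a `p`-automorphism -/
theorem dgc : S_DGC :=
  dgc_of (dgn Pool.Agent.Y44.NV.red Pool.Agent.Y657.NV.dgn1 Pool.Agent.Y77.NV.dgn2)

end Pool.Agent.Y31.DP
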